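import Pool.Agent.MP_66cee2_co.H30U.Main
import Pool.Agent.MP_66cee2_co.H12.Shift

/-
The upper bound with a polynomial loss, for every dimension.
-/

namespace Pool.Agent.MP_66cee2_co.H23U

open MeasureTheory Set Metric ProbabilityTheory Filter Pool.Agent.MP_66cee2_co.H30U
open scoped RealInnerProductSpace

variable {d m : ℕ}

theorem key {ρ : ℝ} (h0 : 0 ≤ ρ) (hρ : ρ ^ 2 = 27 / 16) (u w : V d) (hu : ‖u‖ < 1 / 2)
    (h : ρ < ‖w - (3 / 2 : ℝ) • u‖) : 2 * ⟪w, u⟫ < ‖w‖ ^ 2 - ‖w‖ := by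
  have e : ‖w - (3 / 2 : ℝ) • u‖ ^ 2 = ‖w‖ ^ 2 - 3 * ⟪w, u⟫ + 9 / 4 * ‖u‖ ^ 2 := by
    rw [norm_sub_sq_real, real_inner_smul_right, norm_smul, Real.norm_eq_abs,
      abs_of_pos (by norm_num : (0 : ℝ) < 3 / 2)]
    ring
  have h2 : ρ ^ 2 < ‖w - (3 / 2 : ℝ) • u‖ ^ 2 := pow_lt_pow_left₀ h h0 (by norm_num)
  have h3 : ‖u‖ ^ 2 ≤ (1 / 2) ^ 2 := pow_le_pow_left₀ (norm_nonneg _) hu.le 2
  nlinarith [sq_nonneg (‖w‖ - 3 / 2)]

theorem sep {ρ : ℝ} (h0 : 0 ≤ ρ) (hρ : ρ ^ 2 = 27 / 16) {a : Fin m → V d} {i j : Fin m}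
    {x y : V d} (hij : i ≠ j) (hx : Good (1 / 2) ρ a j x) (hy : Good (1 / 2) ρ a i y) :
    1 < ‖y - x‖ := by
  have h1 := key h0 hρ (x - a j) (a i - a j) hx.1 (by
    have := hx.2 i hij
    rwa [← sub_sub] at this)
  have h2 := key h0 hρ (y - a i) (a j - a i) hy.1 (by
    have := hy.2 j hij.symm
    rwa [← sub_sub] at this)
  have e1 : a j - a i = -(a i - a j) := by abel
  rw [e1, inner_neg_left, norm_neg] at h2
  have e2 : y - x = (a i - a j) + (y - a i) - (x - a j) := by abel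
  have e3 : ⟪a i - a j, y - x⟫ = ‖a i - a j‖ ^ 2 + ⟪a i - a j, y - a i⟫ - ⟪a i - a j, x - a j⟫ := by
    conv_lhs => rw [e2]
    rw [inner_sub_right, inner_add_right, real_inner_self_eq_norm_sq]
  have h4 := real_inner_le_norm (a i - a j) (y - x)
  by_contra hc
  rw [not_lt] at hc
  nlinarith [norm_nonneg (a i - a j)]

theorem robust {ρ ε : ℝ} {a : Fin m → V d} {j : Fin m} {x z : V d}
    (hz : Good (1 / 2 - ε) (ρ + 3 / 2 * ε) a j z) (h : ‖x - z‖ ≤ ε) :
    Good (1 / 2) ρ a j x := by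
  refine ⟨?_, fun i hi => ?_⟩
  · have e : x - a j = (x - z) + (z - a j) := by abel
    rw [e]
    linarith [norm_add_le (x - z) (z - a j), hz.1]
  · have e : a i - (a j + (3 / 2 : ℝ) • (z - a j))
        = (a i - (a j + (3 / 2 : ℝ) • (x - a j))) + (3 / 2 : ℝ) • (x - z) := by
      simp only [smul_sub]; abel
    have h1 := hz.2 i hi
    rw [e] at h1
    have h2 := norm_add_le (a i - (a j + (3 / 2 : ℝ) • (x - a j))) ((3 / 2 : ℝ) • (x - z))
    rw [norm_smul, Real.norm_eq_abs, abs_of_pos (by norm_num : (0 : ℝ) < 3 / 2)] at h2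
    linarith

theorem prob {ρ ε r s : ℝ} (h0 : 0 ≤ ρ) (hρ : ρ ^ 2 = 27 / 16) (hε : 0 ≤ ε)
    (hr : r = 1 / 2 - ε) (hs : s = ρ + 3 / 2 * ε)
    (ν : Measure (V d)) [IsProbabilityMeasure ν] (z : V d) (v : ℝ) (hv0 : 0 ≤ v)
    (hv : ∀ c, ν.real (closedBall c s) ≤ v) :
    m * (ν.real (ball z r) * (1 - m * v)) ≤
      (Measure.pi fun _ : Fin m => ν).real (⋃ j, {a | Good r s a j z}) := by
  rw [measureReal_iUnion_fintype ?_ (fun j => good_meas _ _ j z)]
  · have h : ∀ j : Fin m, ν.real (ball z r) * (1 - m * v) ≤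
        (Measure.pi fun _ : Fin m => ν).real {a | Good r s a j z} := by
      intro j
      have e1 : (Measure.pi fun _ : Fin m => ν).real
          ((fun a : Fin m → V d => a j) ⁻¹' ball z r) = ν.real (ball z r) :=
        (measurePreserving_eval (fun _ : Fin m => ν) j).measureReal_preimage
          measurableSet_ball.nullMeasurableSet
      have sub : (fun a : Fin m → V d => a j) ⁻¹' ball z r ⊆
          {a | Good r s a j z} ∪ ⋃ i ∈ Finset.univ.erase j,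
            {a | ‖z - a j‖ < r ∧ ‖a i - (a j + (3 / 2 : ℝ) • (z - a j))‖ ≤ s} := by
        intro a ha
        have ha' : ‖z - a j‖ < r := by
          rw [mem_preimage, mem_ball, dist_comm, dist_eq_norm] at ha; exact ha
        by_cases hg : ∀ i, i ≠ j → s < ‖a i - (a j + (3 / 2 : ℝ) • (z - a j))‖
        · exact Or.inl ⟨ha', hg⟩
        · simp only [not_forall, not_lt] at hg
          obtain ⟨i, hi, hle⟩ := hg
          exact Or.inr (mem_biUnion (Finset.mem_erase.2 ⟨hi, Finset.mem_univ _⟩) ⟨ha', hle⟩)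
      have e2 := (measureReal_mono (μ := Measure.pi fun _ : Fin m => ν) sub).trans
        ((measureReal_union_le _ _).trans (add_le_add le_rfl ((measureReal_biUnion_finset_le _ _).trans
          (Finset.sum_le_card_nsmul _ _ (ν.real (ball z r) * v) fun i hi =>
            pair ν (Finset.mem_erase.1 hi).1 z _ _ v hv0 hv))))
      rw [e1, nsmul_eq_mul] at e2
      have e3 : ((Finset.univ.erase j).card : ℝ) ≤ m := by
        exact_mod_cast (Finset.card_erase_le.trans (by simp))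
      have e4 : 0 ≤ ν.real (ball z r) * v := mul_nonneg measureReal_nonneg hv0
      nlinarith
    have := Finset.card_nsmul_le_sum Finset.univ _ _ fun j _ => h j
    simpa using this
  · intro i j hij
    refine disjoint_left.2 fun a h1 h2 => ?_
    subst hr hs
    have := sep h0 hρ hij (robust (x := z) h2 (by simpa using hε))
      (robust (x := z) h1 (by simpa using hε))
    simp at this
    linarith

theorem cube {ρ : ℝ} (h0 : 0 ≤ ρ) (hρ : ρ ^ 2 = 27 / 16) (hd : 1 ≤ d) (N : ℕ)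
    (hN : 80 * (d : ℝ) ^ 2 * (2 * ρ) ^ d < N) :
    ∃ col : V d → Fin N, ∀ x y : V d, (∀ i, 0 ≤ x i ∧ x i < 2 * d) →
      (∀ i, 0 ≤ y i ∧ y i < 2 * d) → col x = col y → ‖y - x‖ ≠ 1 := by
  have hd' : (1 : ℝ) ≤ d := by exact_mod_cast hd
  have r1 : 129 / 100 ≤ ρ := by nlinarith
  have r2 : ρ ≤ 13 / 10 := by nlinarith
  obtain ⟨ε, hε⟩ : ∃ ε : ℝ, ε = 1 / (8 * d) := ⟨_, rfl⟩
  have ε0 : 0 < ε := by rw [hε]; positivity
  have εd : ε * d = 1 / 8 := by rw [hε]; field_simp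
  have ε1 : ε ≤ 1 / 8 := by nlinarith
  obtain ⟨r, hr⟩ : ∃ r : ℝ, r = 1 / 2 - ε := ⟨_, rfl⟩
  obtain ⟨s, hs⟩ : ∃ s : ℝ, s = ρ + 3 / 2 * ε := ⟨_, rfl⟩
  have r0 : 0 < r := by linarith
  have s0 : 0 < s := by linarith
  obtain ⟨R, hR⟩ : ∃ R : ℝ, R = 2 * d ^ 2 + 1 := ⟨_, rfl⟩
  have R3 : 3 ≤ R := by nlinarith
  obtain ⟨ν, hν, h1, h2⟩ := unif (d := d) R (by linarith)
  obtain ⟨v, hv⟩ : ∃ v : ℝ, v = (s / R) ^ d := ⟨_, rfl⟩
  have v0 : 0 < v := by rw [hv]; positivity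
  have v1 : v ≤ 1 / 2 := by
    have : s / R ≤ 1 / 2 := by rw [div_le_iff₀ (by linarith)]; linarith
    rw [hv]
    exact (pow_le_of_le_one (by positivity) (by linarith) (by omega)).trans this
  obtain ⟨m, m1, m2⟩ : ∃ m : ℕ, m * v ≤ 1 / 2 ∧ 1 / 4 ≤ m * v := by
    have a1 : 1 ≤ 1 / (2 * v) := by rw [le_div_iff₀ (by positivity)]; linarith
    have a2 := Nat.floor_le (show 0 ≤ 1 / (2 * v) by positivity)
    have a3 := Nat.lt_floor_add_one (1 / (2 * v))
    have a4 : (1 : ℝ) ≤ ⌊1 / (2 * v)⌋₊ := by exact_mod_cast Nat.floor_pos.2 a1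
    refine ⟨⌊1 / (2 * v)⌋₊, ?_, ?_⟩
    · rw [le_div_iff₀ (by positivity)] at a2; linarith
    · rw [div_lt_iff₀ (by positivity)] at a3; nlinarith
  let pt : (Fin d → Fin (16 * d ^ 3)) → V d := fun k =>
    WithLp.toLp 2 fun i => ((k i : ℕ) : ℝ) / (8 * d ^ 2)
  have ptn : ∀ k, ‖pt k‖ + r ≤ R := by
    intro k
    have := norm_le_of (pt k) (2 * d) (by positivity) fun i => by
      have hk : ((k i : ℕ) : ℝ) ≤ 16 * d ^ 3 := by exact_mod_cast (k i).2.le
      simp only [pt]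
      rw [abs_of_nonneg (by positivity), div_le_iff₀ (by positivity)]
      nlinarith
    nlinarith
  obtain ⟨q, hq⟩ : ∃ q : ℝ, q = (r / s) ^ d := ⟨_, rfl⟩
  have q0 : 0 < q := by rw [hq]; positivity
  have q2 : 1 ≤ q * (2 * (2 * ρ) ^ d) := by
    have b1 : 1 ≤ r / s * ((1 + 5 * ε) * (2 * ρ)) := by
      rw [div_mul_eq_mul_div, le_div_iff₀ s0, hr, hs]
      nlinarith [mul_nonneg ε0.le (show 0 ≤ ρ * (3 - 10 * ε) - 3 / 2 by nlinarith)]
    have b2 : (1 + 5 * ε) ^ d ≤ 2 := by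
      calc (1 + 5 * ε) ^ d ≤ Real.exp (5 * ε) ^ d :=
            pow_le_pow_left₀ (by positivity) (by linarith [Real.add_one_le_exp (5 * ε)]) d
        _ = Real.exp (d * (5 * ε)) := (Real.exp_nat_mul _ _).symm
        _ ≤ Real.exp (Real.log 2) :=
            Real.exp_le_exp.2 (by nlinarith [Real.log_two_gt_d9])
        _ = 2 := Real.exp_log (by norm_num)
    have b3 := one_le_pow₀ (n := d) b1
    rw [mul_pow, mul_pow, ← hq] at b3
    refine b3.trans (mul_le_mul_of_nonneg_left ?_ q0.le)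
    exact mul_le_mul_of_nonneg_right b2 (by positivity)
  obtain ⟨p, hp⟩ : ∃ p : ℝ, p = q / 8 := ⟨_, rfl⟩
  have q1 : (r / R) ^ d = q * v := by
    rw [hv, hq, ← mul_pow]; congr 1; field_simp
  obtain ⟨ω, hω⟩ := cover (Measure.pi fun _ : Fin m => ν)
    (fun k => ⋃ j, {a | Good r s a j (pt k)})
    (fun k => MeasurableSet.iUnion fun j => good_meas _ _ j _) p (fun k => by
      refine le_trans ?_ (prob h0 hρ ε0.le hr hs ν (pt k) v v0.le fun c => hv ▸ h2 c _ s0.le)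
      rw [h1 _ _ r0 (ptn k), q1, hp]
      have e : (m : ℝ) * (q * v * (1 - m * v)) = q * ((m * v) * (1 - m * v)) := by ring
      rw [e, div_eq_mul_inv]
      refine mul_le_mul_of_nonneg_left ?_ q0.le
      nlinarith) N (by
      rw [Fintype.card_fun, Fintype.card_fin, Fintype.card_fin]
      push_cast
      have a0 : (16 : ℝ) * d ^ 3 ≤ Real.exp (5 * d) := by
        have := Real.pow_div_factorial_le_exp (5 * (d : ℝ)) (by positivity) 3
        have e : (5 * (d : ℝ)) ^ 3 / ((Nat.factorial 3 : ℕ) : ℝ) = 125 / 6 * d ^ 3 := by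
          simp only [Nat.factorial]; push_cast; ring
        rw [e] at this
        have : (0 : ℝ) ≤ d ^ 3 := by positivity
        linarith
      have a1 : ((16 : ℝ) * d ^ 3) ^ d ≤ Real.exp (d * (5 * d)) := by
        rw [Real.exp_nat_mul]
        exact pow_le_pow_left₀ (by positivity) a0 d
      have a2 : (d : ℝ) * (5 * d) < p * N := by
        have a3 := mul_lt_mul_of_pos_left hN q0
        have a4 := mul_le_mul_of_nonneg_left q2 (show (0 : ℝ) ≤ 40 * d ^ 2 by positivity)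
        rw [hp]; nlinarith
      calc _ ≤ Real.exp (d * (5 * d)) * Real.exp (-p * N) :=
            mul_le_mul_of_nonneg_right a1 (Real.exp_pos _).le
        _ < 1 := by rw [← Real.exp_add, Real.exp_lt_one_iff]; linarith)
  have ex : ∀ x : V d, ∃ k : Fin N, (∀ i, 0 ≤ x i ∧ x i < 2 * d) →
      ∃ j, Good (1 / 2) ρ (ω k) j x := by
    intro x
    by_cases hx : ∀ i, 0 ≤ x i ∧ x i < 2 * d
    · have lt : ∀ i, ⌊x i * (8 * d ^ 2)⌋₊ < 16 * d ^ 3 := by
        intro i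
        rw [Nat.floor_lt (mul_nonneg (hx i).1 (by positivity))]
        push_cast
        have := mul_lt_mul_of_pos_right (hx i).2 (show (0 : ℝ) < 8 * d ^ 2 by positivity)
        linarith
      obtain ⟨k, hk⟩ := hω fun i => ⟨_, lt i⟩
      obtain ⟨j, hj⟩ := mem_iUnion.1 hk
      rw [hr, hs] at hj
      refine ⟨k, fun _ => ⟨j, robust hj ?_⟩⟩
      have := norm_le_of (x - pt fun i => ⟨_, lt i⟩) (1 / (8 * d ^ 2)) (by positivity) fun i => by
        have a1 := Nat.floor_le (mul_nonneg (hx i).1 (show (0 : ℝ) ≤ 8 * d ^ 2 by positivity))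
        have a2 := Nat.lt_floor_add_one (x i * (8 * d ^ 2))
        have e : (x - pt fun i => ⟨_, lt i⟩) i
            = (x i * (8 * d ^ 2) - ⌊x i * (8 * d ^ 2)⌋₊) / (8 * d ^ 2) := by
          simp only [pt, PiLp.sub_apply]; field_simp
        rw [e, abs_of_nonneg (div_nonneg (by linarith) (by positivity))]
        exact div_le_div_of_nonneg_right (by linarith) (by positivity)
      refine this.trans (le_of_eq ?_)
      rw [hε]
      field_simp
    · obtain ⟨k, -⟩ := hω fun i => ⟨0, by positivity⟩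
      exact ⟨k, fun h => absurd h hx⟩
  choose col hcol using ex
  refine ⟨col, fun x y hx hy h => ?_⟩
  obtain ⟨j, hj⟩ := hcol x hx
  obtain ⟨i, hi⟩ := hcol y hy
  rw [← h] at hi
  by_cases hij : i = j
  · subst hij; exact (same hj hi).ne
  · exact (sep h0 hρ hij hj hi).ne'

theorem upper : ∀ d n : ℕ, 1 ≤ d → 200 * (d : ℝ) ^ 3 * (3 * √3 / 2) ^ d ≤ n →
    ∃ f : V d → V n, (∀ x y, ‖x - y‖ = 1 → ‖f x - f y‖ = 1) ∧
      ∃ x y, ‖f x - f y‖ ≠ ‖x - y‖ := by
  intro d n hd hn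
  have hd' : (1 : ℝ) ≤ d := by exact_mod_cast hd
  have s3 : √3 ^ 2 = (3 : ℝ) := Real.sq_sqrt (by norm_num)
  have s0 : (0 : ℝ) ≤ √3 := Real.sqrt_nonneg _
  have e : 2 * (3 * √3 / 4) = (3 * √3 / 2 : ℝ) := by ring
  obtain ⟨c, hc⟩ := cube (ρ := 3 * √3 / 4) (by positivity) (by nlinarith) hd
    (⌊80 * (d : ℝ) ^ 2 * (3 * √3 / 2) ^ d⌋₊ + 1)
    (by rw [e]; push_cast; exact Nat.lt_floor_add_one _)
  refine H12S.map_of_cube hd ?_ c fun x y hx hy h h' => hc y x hy hx h'.symm h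
  have a1 := Nat.floor_le (show 0 ≤ 80 * (d : ℝ) ^ 2 * (3 * √3 / 2) ^ d by positivity)
  have a2 : (1 : ℝ) ≤ (3 * √3 / 2) ^ d := one_le_pow₀ (by nlinarith)
  have a3 : (1 : ℝ) ≤ d ^ 2 := one_le_pow₀ hd'
  have a4 : (1 : ℝ) ≤ d ^ 2 * (3 * √3 / 2) ^ d := one_le_mul_of_one_le_of_one_le a3 a2
  have a5 : ((d : ℝ) + 1) * (⌊80 * (d : ℝ) ^ 2 * (3 * √3 / 2) ^ d⌋₊ + 1)
      ≤ (2 * d) * (100 * (d ^ 2 * (3 * √3 / 2) ^ d)) :=
    mul_le_mul (by linarith) (by linarith) (by positivity) (by positivity)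
  have a6 : (2 * (d : ℝ)) * (100 * (d ^ 2 * (3 * √3 / 2) ^ d))
      = 200 * (d : ℝ) ^ 3 * (3 * √3 / 2) ^ d := by ring
  have : (((d + 1) * (⌊80 * (d : ℝ) ^ 2 * (3 * √3 / 2) ^ d⌋₊ + 1) : ℕ) : ℝ) ≤ n := by
    push_cast; linarith
  exact_mod_cast this

end Pool.Agent.MP_66cee2_co.H23U
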